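import Mathlib

/-! Andreotti-Mayer loci in the Siegel upper half space: definitions. -/

open Complex Filter Topology

noncomputable section

namespace Pool.Agent.MP_f58063_ag

/-- complex `g × g` matrices, as a normed space -/
abbrev Mat (g : ℕ) : Type := Fin g → Fin g → ℂ

/-- the Siegel upper half space: symmetric matrices with positive definite imaginary part -/
def Siegel (g : ℕ) : Set (Mat g) :=
  {τ | (∀ i j, τ i j = τ j i) ∧
    ∀ v : Fin g → ℝ, v ≠ 0 → 0 < ∑ i, ∑ j, v i * (τ i j).im * v j}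

/-- the Riemann theta function -/
def theta {g : ℕ} (τ : Mat g) (z : Fin g → ℂ) : ℂ :=
  ∑' n : Fin g → ℤ, exp (Real.pi * I * ∑ i, ∑ j, (n i : ℂ) * τ i j * n j +
    2 * Real.pi * I * ∑ i, (n i : ℂ) * z i)

/-- the preimage in `ℂ^g` of the singular locus of the theta divisor -/
def singTheta {g : ℕ} (τ : Mat g) : Set (Fin g → ℂ) :=
  {z | theta τ z = 0 ∧ fderiv ℂ (theta τ) z = 0}

/-- `S` contains a germ of a `k`-dimensional complex submanifold through `p` -/
def DimGE {X : Type} [NormedAddCommGroup X] [NormedSpace ℂ X] (S : Set X) (p : X) (k : ℕ) :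
    Prop :=
  ∃ f : (Fin k → ℂ) → X, f 0 = p ∧ AnalyticAt ℂ f 0 ∧ Function.Injective (fderiv ℂ f 0) ∧
    ∀ᶠ x in 𝓝 0, f x ∈ S

/-- the preimage in the Siegel space of the Andreotti-Mayer locus `N_{k,g}` -/
def AM (g k : ℕ) : Set (Mat g) := {τ ∈ Siegel g | ∃ z, DimGE (singTheta τ) z k}

/-- the period lattice `ℤ^g + τ ℤ^g` -/
def lattice {g : ℕ} (τ : Mat g) : Set (Fin g → ℂ) :=
  {w | ∃ m n : Fin g → ℤ, w = fun i => (m i : ℂ) + ∑ j, τ i j * n j}

/-- the torus `ℂ^g / (ℤ^g + τ ℤ^g)` has no subtorus except `0` and itself -/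
def IsSimple {g : ℕ} (τ : Mat g) : Prop :=
  ∀ F : Submodule ℂ (Fin g → ℂ),
    (F : Set (Fin g → ℂ)) ⊆ Submodule.span ℝ (lattice τ ∩ F) → F = ⊥ ∨ F = ⊤

end Pool.Agent.MP_f58063_ag
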